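import Pool.Agent.TH850.UV.Vm
import Pool.Agent.H382L.ClusterTail

set_option autoImplicit false

/-! # The fourth moment of the majorant of the local statistics, on RH -/

namespace Pool.Agent.R320.VR

open Complex Filter Topology MeasureTheory Set
open Pool.Agent.TH850.UR (ew)
open Pool.Agent.TH850.UV
open H370 (Zf mult mem_Zf good_zeta)
open SP (RHs Mk ZZ mu Q1)

open V2aux in
/-- from the window fourth moment to the weighted fourth moment -/
theorem v4 (S : Finset ℂ) (w : ℂ → ℝ) (hw : ∀ s, 0 ≤ w s) (L : ℝ) (hL : 0 < L) (A : ℝ) (hA : 0 ≤ A)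
    (h : ∫⁻ t : ℝ, ENNReal.ofReal ((∑ s ∈ S.filter (fun s => |s.im - t| ≤ 1 / L), w s) ^ 4) ≤
      ENNReal.ofReal A) :
    Integrable (fun t : ℝ => (∑ s ∈ S, w s / (1 + ((s.im - t) * L) ^ 2)) ^ 4) ∧
    ∫ t : ℝ, (∑ s ∈ S, w s / (1 + ((s.im - t) * L) ^ 2)) ^ 4 ≤ 600 * A := by
  have hF : Measurable (F S w L) := F_meas S w L
  have hpi := Real.pi_pos
  have h' : ∫⁻ t : ℝ, ENNReal.ofReal (F S w L t ^ 4) ≤ ENNReal.ofReal A := h
  obtain ⟨W, hW⟩ : ∃ W, W = ∑ s ∈ S, w s := ⟨_, rfl⟩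
  have hFW : ∀ t, |F S w L t| ≤ W := fun t => by
    rw [abs_of_nonneg (F_nonneg S hw L t), hW]
    exact F_le S hw L t
  -- pointwise bound of the fourth power
  have h1 : ∀ t, (∑ s ∈ S, w s / (1 + ((s.im - t) * L) ^ 2)) ^ 4 ≤
      81 / 16 * Real.pi ^ 3 * ∫ v : ℝ, F S w L (t + v / L) ^ 4 * (1 + v ^ 2)⁻¹ := by
    intro t
    have g0 : 0 ≤ ∑ s ∈ S, w s / (1 + ((s.im - t) * L) ^ 2) :=
      Finset.sum_nonneg (fun s _ => div_nonneg (hw s) (by positivity))
    have g1 := pt S hw hL t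
    have g2 := cs (fun v => F S w L (t + v / L)) (hF.comp (by fun_prop)) W (fun v => hFW _)
    have g3 := cs (fun v => F S w L (t + v / L) ^ 2) ((hF.comp (by fun_prop)).pow_const 2) (W ^ 2)
      (fun v => by
        rw [abs_pow]
        exact pow_le_pow_left₀ (abs_nonneg _) (hFW _) 2)
    simp only [← pow_mul] at g3
    norm_num at g3
    have g4 : 0 ≤ ∫ v : ℝ, F S w L (t + v / L) ^ 2 * (1 + v ^ 2)⁻¹ :=
      integral_nonneg (fun v => by positivity)
    have g5 : (∑ s ∈ S, w s / (1 + ((s.im - t) * L) ^ 2)) ^ 2 ≤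
        9 / 4 * Real.pi * ∫ v : ℝ, F S w L (t + v / L) ^ 2 * (1 + v ^ 2)⁻¹ := by
      calc (∑ s ∈ S, w s / (1 + ((s.im - t) * L) ^ 2)) ^ 2
          ≤ (3 / 2 * ∫ v : ℝ, F S w L (t + v / L) * (1 + v ^ 2)⁻¹) ^ 2 := pow_le_pow_left₀ g0 g1 2
        _ = 9 / 4 * (∫ v : ℝ, F S w L (t + v / L) * (1 + v ^ 2)⁻¹) ^ 2 := by ring
        _ ≤ 9 / 4 * (Real.pi * ∫ v : ℝ, F S w L (t + v / L) ^ 2 * (1 + v ^ 2)⁻¹) :=
            mul_le_mul_of_nonneg_left g2 (by norm_num)
        _ = _ := by ring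
    calc (∑ s ∈ S, w s / (1 + ((s.im - t) * L) ^ 2)) ^ 4
        = ((∑ s ∈ S, w s / (1 + ((s.im - t) * L) ^ 2)) ^ 2) ^ 2 := by ring
      _ ≤ (9 / 4 * Real.pi * ∫ v : ℝ, F S w L (t + v / L) ^ 2 * (1 + v ^ 2)⁻¹) ^ 2 :=
          pow_le_pow_left₀ (sq_nonneg _) g5 2
      _ = 81 / 16 * Real.pi ^ 2 * (∫ v : ℝ, F S w L (t + v / L) ^ 2 * (1 + v ^ 2)⁻¹) ^ 2 := by ring
      _ ≤ 81 / 16 * Real.pi ^ 2 * (Real.pi * ∫ v : ℝ, F S w L (t + v / L) ^ 4 * (1 + v ^ 2)⁻¹) :=
          mul_le_mul_of_nonneg_left g3 (by positivity)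
      _ = _ := by ring
  have h2 : ∀ t, ENNReal.ofReal ((∑ s ∈ S, w s / (1 + ((s.im - t) * L) ^ 2)) ^ 4) ≤
      ENNReal.ofReal (81 / 16 * Real.pi ^ 3) * ∫⁻ v : ℝ, ENNReal.ofReal (F S w L (t + v / L) ^ 4) *
        ENNReal.ofReal ((1 + v ^ 2)⁻¹) := by
    intro t
    refine (ENNReal.ofReal_le_ofReal (h1 t)).trans ?_
    rw [ENNReal.ofReal_mul (by positivity)]
    refine mul_le_mul_right ?_ _
    rw [ofReal_integral_eq_lintegral_ofReal]
    · refine lintegral_mono (fun v => ?_)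
      rw [ENNReal.ofReal_mul (by positivity)]
    · refine integrable_inv_one_add_sq.bdd_mul (c := W ^ 4)
        ((hF.comp (by fun_prop : Measurable fun v : ℝ => t + v / L)).pow_const 4).aestronglyMeasurable
        (Filter.Eventually.of_forall (fun v => ?_))
      rw [Real.norm_eq_abs, abs_pow]
      exact pow_le_pow_left₀ (abs_nonneg _) (hFW _) 4
    · exact Filter.Eventually.of_forall (fun v => by positivity)
  have h3 : ∫⁻ t : ℝ, ENNReal.ofReal ((∑ s ∈ S, w s / (1 + ((s.im - t) * L) ^ 2)) ^ 4) ≤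
      ENNReal.ofReal (81 / 16 * Real.pi ^ 3) * (ENNReal.ofReal Real.pi * ENNReal.ofReal A) := by
    refine (lintegral_mono h2).trans ?_
    rw [lintegral_const_mul' _ _ ENNReal.ofReal_ne_top]
    refine mul_le_mul_right ?_ _
    have hm : Measurable (fun p : ℝ × ℝ => ENNReal.ofReal (F S w L (p.1 + p.2 / L) ^ 4) *
        ENNReal.ofReal ((1 + p.2 ^ 2)⁻¹)) := by
      have m1 : Measurable (fun p : ℝ × ℝ => ENNReal.ofReal (F S w L (p.1 + p.2 / L) ^ 4)) :=
        ENNReal.measurable_ofReal.comp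
          ((hF.comp (by fun_prop : Measurable fun p : ℝ × ℝ => p.1 + p.2 / L)).pow_const 4)
      have m2 : Measurable (fun p : ℝ × ℝ => ENNReal.ofReal ((1 + p.2 ^ 2)⁻¹)) :=
        ENNReal.measurable_ofReal.comp (by fun_prop)
      exact m1.mul m2
    have hm' : AEMeasurable (Function.uncurry (fun (t v : ℝ) =>
        ENNReal.ofReal (F S w L (t + v / L) ^ 4) * ENNReal.ofReal ((1 + v ^ 2)⁻¹)))
        ((volume : Measure ℝ).prod (volume : Measure ℝ)) := hm.aemeasurable
    rw [lintegral_lintegral_swap hm']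
    have e1 : ∀ v : ℝ, ∫⁻ t : ℝ, ENNReal.ofReal (F S w L (t + v / L) ^ 4) *
        ENNReal.ofReal ((1 + v ^ 2)⁻¹) =
        (∫⁻ t : ℝ, ENNReal.ofReal (F S w L t ^ 4)) * ENNReal.ofReal ((1 + v ^ 2)⁻¹) := by
      intro v
      rw [lintegral_mul_const' _ _ ENNReal.ofReal_ne_top]
      congr 1
      exact lintegral_add_right_eq_self (fun t : ℝ => ENNReal.ofReal (F S w L t ^ 4)) (v / L)
    rw [lintegral_congr e1]
    have hne : (∫⁻ t : ℝ, ENNReal.ofReal (F S w L t ^ 4)) ≠ ⊤ :=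
      (lt_of_le_of_lt h' ENNReal.ofReal_lt_top).ne
    rw [lintegral_const_mul' _ _ hne]
    have e2 : ∫⁻ v : ℝ, ENNReal.ofReal ((1 + v ^ 2)⁻¹) = ENNReal.ofReal Real.pi := by
      rw [← ofReal_integral_eq_lintegral_ofReal integrable_inv_one_add_sq
        (Filter.Eventually.of_forall (fun v => by positivity)), integral_univ_inv_one_add_sq]
    rw [e2, mul_comm]
    exact mul_le_mul_right h' _
  have h4 : ENNReal.ofReal (81 / 16 * Real.pi ^ 3) * (ENNReal.ofReal Real.pi * ENNReal.ofReal A) ≤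
      ENNReal.ofReal (600 * A) := by
    rw [← ENNReal.ofReal_mul hpi.le, ← ENNReal.ofReal_mul (by positivity)]
    refine ENNReal.ofReal_le_ofReal ?_
    have h5 : Real.pi ^ 2 ≤ 10 := by
      have := Real.pi_lt_d2
      nlinarith
    have h6 : Real.pi ^ 4 ≤ 100 := by
      calc Real.pi ^ 4 = (Real.pi ^ 2) ^ 2 := by ring
        _ ≤ 10 ^ 2 := pow_le_pow_left₀ (sq_nonneg _) h5 2
        _ = 100 := by norm_num
    calc 81 / 16 * Real.pi ^ 3 * (Real.pi * A) = 81 / 16 * Real.pi ^ 4 * A := by ring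
      _ ≤ 600 * A := mul_le_mul_of_nonneg_right (by linarith) hA
  have h5 := h3.trans h4
  have hcont : Continuous (fun t : ℝ => (∑ s ∈ S, w s / (1 + ((s.im - t) * L) ^ 2)) ^ 4) := by
    refine Continuous.pow (continuous_finsetSum _ (fun s _ => ?_)) 4
    refine Continuous.div (by fun_prop) (by fun_prop) (fun t => by positivity)
  have hint : Integrable (fun t : ℝ => (∑ s ∈ S, w s / (1 + ((s.im - t) * L) ^ 2)) ^ 4) := by
    refine ⟨hcont.aestronglyMeasurable, ?_⟩
    rw [hasFiniteIntegral_iff_ofReal (Filter.Eventually.of_forall (fun t => by positivity))]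
    exact lt_of_le_of_lt h5 ENNReal.ofReal_lt_top
  refine ⟨hint, ?_⟩
  rw [← ofReal_integral_eq_lintegral_ofReal hint
    (Filter.Eventually.of_forall (fun t => by positivity))] at h5
  exact (ENNReal.ofReal_le_ofReal_iff (by positivity)).mp h5

/-- the window sum is dominated by the local statistic -/
lemma F_le_Mk (hRH : RHs) {T : ℝ} (hT : 10 ≤ T) (lam u : ℝ) {k : ℕ} (hk : 1 ≤ k) :
    V2aux.F (Zf riemannZeta T (2 * T)) (fun s => (mult riemannZeta s : ℝ) * ew (1 / (2 * lam)) (Real.log T) s)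
      (Real.log T) u ≤ 4 * Mk T k u := by
  classical
  have hL1 : 1 ≤ Real.log T := by
    rw [Real.le_log_iff_exp_le (by linarith)]
    linarith [Real.exp_one_lt_d9]
  have hL0 : 0 < Real.log T := by linarith
  have hk' : (1 : ℝ) ≤ k := by exact_mod_cast hk
  have e1 : Mk T k u = ∑ s ∈ Zf riemannZeta T (2 * T), (mu s : ℝ) * Real.exp (-(s.im - u) ^ 2 / 2) /
      (1 + (Real.log T * (s.im - u) / k) ^ 2) := by
    unfold SP.Mk
    exact H370.finsum_Zf good_zeta (by linarith) _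
  rw [e1]
  unfold V2aux.F
  rw [Finset.mul_sum, Finset.sum_filter]
  refine Finset.sum_le_sum fun s hs => ?_
  have h0 : 0 ≤ 4 * ((mu s : ℝ) * Real.exp (-(s.im - u) ^ 2 / 2) /
      (1 + (Real.log T * (s.im - u) / k) ^ 2)) := by positivity
  split_ifs with h
  · rw [mem_Zf good_zeta (by linarith)] at hs
    have hre : s.re = 1 / 2 := hRH s hs.1 hs.2.1 hs.2.2.2.2
    have e2 : ew (1 / (2 * lam)) (Real.log T) s = 1 := by
      unfold Pool.Agent.TH850.UR.ew
      rw [hre]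
      simp
    rw [e2, mul_one]
    have e3 : (mult riemannZeta s : ℝ) = (mu s : ℝ) := rfl
    rw [e3]
    have hinv : 1 / Real.log T ≤ 1 := by rw [div_le_one hL0]; exact hL1
    have hx : (s.im - u) ^ 2 ≤ 1 := by
      rw [sq_le_one_iff_abs_le_one]
      exact h.trans hinv
    have hexp : 1 / 2 ≤ Real.exp (-(s.im - u) ^ 2 / 2) := by
      have := Real.add_one_le_exp (-(s.im - u) ^ 2 / 2)
      linarith
    have hden : 1 + (Real.log T * (s.im - u) / k) ^ 2 ≤ 2 := by
      have a1 : |Real.log T * (s.im - u) / k| ≤ 1 := by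
        rw [abs_div, abs_mul, abs_of_pos hL0, abs_of_pos (by linarith : (0 : ℝ) < k),
          div_le_one (by linarith)]
        have : Real.log T * |s.im - u| ≤ 1 := by
          calc Real.log T * |s.im - u| ≤ Real.log T * (1 / Real.log T) :=
                mul_le_mul_of_nonneg_left h hL0.le
            _ = 1 := by field_simp
        linarith
      have a2 := (sq_le_one_iff_abs_le_one _).2 a1
      linarith
    have hmu : (0 : ℝ) ≤ mu s := Nat.cast_nonneg _
    have hden0 : 0 < 1 + (Real.log T * (s.im - u) / k) ^ 2 := by positivity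
    have h5 : 1 / 4 ≤ Real.exp (-(s.im - u) ^ 2 / 2) / (1 + (Real.log T * (s.im - u) / k) ^ 2) := by
      rw [div_le_div_iff₀ (by norm_num) hden0]
      linarith
    calc (mu s : ℝ) = 4 * ((mu s : ℝ) * (1 / 4)) := by ring
      _ ≤ 4 * ((mu s : ℝ) * (Real.exp (-(s.im - u) ^ 2 / 2) /
          (1 + (Real.log T * (s.im - u) / k) ^ 2))) := by gcongr
      _ = _ := by ring
  · exact h0

/-- **the fourth moment of the majorant** -/
theorem V_four (hRH : RHs) {lam : ℝ} (hlam : 1 ≤ lam) : ∃ C T0 : ℝ, 0 < C ∧ 10 ≤ T0 ∧ ∀ T : ℝ, T0 ≤ T →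
    Integrable (fun t => VV lam T t ^ 4) ∧ ∫ t, VV lam T t ^ 4 ≤ C * T := by
  classical
  obtain ⟨CM, TM, hCM, hTM, hM⟩ := SP.Mk_bound hRH (1 / 4) (by norm_num) (by norm_num)
  obtain ⟨CQ, TQ, hCQ, hTQ, hQ⟩ := LG.CTAux.leb_mom (1 / 4) (by norm_num) (by norm_num)
  obtain ⟨C2, hC2, hw⟩ := wcount
  have hev : ∀ᶠ T : ℝ in atTop, (2 * Real.log T + 2) * (C2 * Real.log T) ^ 4 ≤ T ∧
      2 * Real.log T + 2 ≤ T := by
    have h1 : (fun T : ℝ => Real.log T ^ 5) =o[atTop] id := Real.isLittleO_pow_log_id_atTop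
    have h2 := h1.bound (c := 1 / (4 * (C2 ^ 4 + 1))) (by positivity)
    filter_upwards [h2, eventually_ge_atTop 1, Real.tendsto_log_atTop.eventually_ge_atTop 1] with T hT hT1 hT2
    rw [id, Real.norm_of_nonneg (by positivity), Real.norm_of_nonneg (by linarith)] at hT
    have h3 : 4 * (C2 ^ 4 + 1) * Real.log T ^ 5 ≤ T := by
      calc 4 * (C2 ^ 4 + 1) * Real.log T ^ 5 ≤ 4 * (C2 ^ 4 + 1) * (1 / (4 * (C2 ^ 4 + 1)) * T) :=
            mul_le_mul_of_nonneg_left hT (by positivity)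
        _ = T := by field_simp
    have h4 : 2 * Real.log T + 2 ≤ 4 * Real.log T := by linarith
    constructor
    · calc (2 * Real.log T + 2) * (C2 * Real.log T) ^ 4 ≤ (4 * Real.log T) * (C2 * Real.log T) ^ 4 := by
            gcongr
        _ = 4 * C2 ^ 4 * Real.log T ^ 5 := by ring
        _ ≤ 4 * (C2 ^ 4 + 1) * Real.log T ^ 5 := by
            apply mul_le_mul_of_nonneg_right _ (by positivity)
            linarith
        _ ≤ T := h3
    · have h5 : Real.log T ≤ Real.log T ^ 5 := by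
        calc Real.log T = Real.log T ^ 1 := (pow_one _).symm
          _ ≤ Real.log T ^ 5 := pow_le_pow_right₀ hT2 (by norm_num)
      have h6 : 4 * Real.log T ^ 5 ≤ 4 * (C2 ^ 4 + 1) * Real.log T ^ 5 := by
        apply mul_le_mul_of_nonneg_right _ (by positivity)
        have : 0 < C2 ^ 4 := by positivity
        linarith
      linarith
  obtain ⟨T3, hT3⟩ := hev.exists_forall_of_atTop
  refine ⟨600 * (1 + (8 * CM) ^ 4 * (8 * (1 + 6 * (CQ / 2) ^ 2))), max (max TM TQ) T3, by positivity,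
    hTM.trans ((le_max_left _ _).trans (le_max_left _ _)), fun T hT => ?_⟩
  have hTTM : TM ≤ T := ((le_max_left _ _).trans (le_max_left _ _)).trans hT
  have hTTQ : TQ ≤ T := ((le_max_right _ _).trans (le_max_left _ _)).trans hT
  obtain ⟨g1, g2⟩ := hT3 T ((le_max_right _ _).trans hT)
  have hT10 : 10 ≤ T := hTM.trans hTTM
  have hT0 : 0 < T := by linarith
  have hL2 : 2 ≤ Real.log T := by
    rw [Real.le_log_iff_exp_le hT0]
    have : Real.exp 2 = Real.exp 1 ^ 2 := by rw [← Real.exp_nat_mul]; norm_num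
    rw [this]
    have h2 := Real.exp_one_lt_d9
    have h3 := Real.exp_pos 1
    nlinarith
  obtain ⟨L, hL⟩ : ∃ L : ℝ, L = Real.log T := ⟨_, rfl⟩
  have hL0 : 0 < L := by rw [hL]; linarith
  obtain ⟨w, hwd⟩ : ∃ w : ℂ → ℝ, w = fun s => (mult riemannZeta s : ℝ) * ew (1 / (2 * lam)) L s := ⟨_, rfl⟩
  have hw0 : ∀ s, 0 ≤ w s := fun s => by
    rw [hwd]; exact mul_nonneg (Nat.cast_nonneg _) (ew_nonneg _ _ _)
  obtain ⟨FF, hFF⟩ : ∃ FF : ℝ → ℝ, FF = V2aux.F (Zf riemannZeta T (2 * T)) w L := ⟨_, rfl⟩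
  have hFF0 : ∀ u, 0 ≤ FF u := fun u => by rw [hFF]; exact V2aux.F_nonneg _ hw0 _ _
  have hFm : Measurable FF := by rw [hFF]; exact V2aux.F_meas _ _ _
  -- local bounds
  have hFw : ∀ u, FF u ≤ C2 * L := by
    intro u
    rw [hFF]
    unfold V2aux.F
    have h7 : ∀ s ∈ (Zf riemannZeta T (2 * T)).filter (fun s => |s.im - u| ≤ 1 / L), w s ≤
        (mult riemannZeta s : ℝ) := by
      intro s hs
      rw [Finset.mem_filter, mem_Zf good_zeta (by linarith)] at hs
      have hre : s.re = 1 / 2 := hRH s hs.1.1 hs.1.2.1 hs.1.2.2.2.2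
      rw [hwd]
      show (mult riemannZeta s : ℝ) * ew (1 / (2 * lam)) L s ≤ _
      have e2 : ew (1 / (2 * lam)) L s = 1 := by
        unfold Pool.Agent.TH850.UR.ew
        rw [hre]
        simp
      rw [e2, mul_one]
    refine (Finset.sum_le_sum h7).trans ?_
    rw [hL]
    apply hw T hT10 u (1 / Real.log T)
    exact one_div_le_one_div_of_le (by norm_num) hL2
  have hFout : ∀ u, (u < T - 1 ∨ 2 * T + 1 < u) → FF u = 0 := by
    intro u hu
    rw [hFF]
    unfold V2aux.F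
    apply Finset.sum_eq_zero
    intro s hs
    exfalso
    rw [Finset.mem_filter, mem_Zf good_zeta (by linarith)] at hs
    obtain ⟨⟨h3, h4, h5, h6, h7⟩, h8⟩ := hs
    have : 1 / L ≤ 1 := by rw [div_le_one hL0, hL]; linarith
    rw [abs_le] at h8
    rcases hu with hu | hu
    · linarith [h8.2]
    · linarith [h8.1]
  have hFin : ∀ u ∈ Icc (T + L) (2 * T - L), FF u ≤ 8 * CM * (1 + ‖Q1 (1 / 4) T 2 u‖) := by
    intro u hu
    have a1 := F_le_Mk hRH hT10 lam u (k := 2) (by norm_num)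
    rw [← hL, ← hwd, ← hFF] at a1
    have a2 := hM T hTTM u (by rw [← hL]; exact hu.1) (by rw [← hL]; exact hu.2) 2 (by norm_num)
    push_cast at a1 a2
    calc FF u ≤ 4 * Mk T 2 u := a1
      _ ≤ 4 * (CM * 2 * (1 + ‖Q1 (1 / 4) T 2 u‖)) := by linarith
      _ = _ := by ring
  -- the integral
  have hQc : Continuous fun u => ‖Q1 (1 / 4) T 2 u‖ := (LG.CTAux.Q1_cont (1 / 4) T 2).norm
  have hAB : T + L ≤ 2 * T - L := by rw [hL]; linarith
  have hmom := hQ T hTTQ 2 (by norm_num) (T + L) (2 * T - L) (by linarith) hAB (by linarith)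
  have key : ∫⁻ t : ℝ, ENNReal.ofReal (FF t ^ 4) ≤
      ENNReal.ofReal ((1 + (8 * CM) ^ 4 * (8 * (1 + 6 * (CQ / 2) ^ 2))) * T) := by
    have hle : ∀ t : ℝ, ENNReal.ofReal (FF t ^ 4) ≤
        (Icc (T - 1) (T + L)).indicator (fun _ => ENNReal.ofReal ((C2 * L) ^ 4)) t +
        ((Icc (2 * T - L) (2 * T + 1)).indicator (fun _ => ENNReal.ofReal ((C2 * L) ^ 4)) t +
        (Icc (T + L) (2 * T - L)).indicator (fun t => ENNReal.ofReal ((8 * CM) ^ 4 *
          (8 * (1 + ‖Q1 (1 / 4) T 2 t‖ ^ (2 * 2))))) t) := by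
      intro t
      have hb : FF t ^ 4 ≤ (C2 * L) ^ 4 := pow_le_pow_left₀ (hFF0 t) (hFw t) 4
      by_cases h1 : t ∈ Icc (T - 1) (T + L)
      · rw [indicator_of_mem h1]
        exact le_add_right (ENNReal.ofReal_le_ofReal hb)
      by_cases h2 : t ∈ Icc (2 * T - L) (2 * T + 1)
      · rw [indicator_of_mem h2]
        exact le_add_left (le_add_right (ENNReal.ofReal_le_ofReal hb))
      by_cases h3 : t ∈ Icc (T + L) (2 * T - L)
      · rw [indicator_of_mem h3]
        refine le_add_left (le_add_left (ENNReal.ofReal_le_ofReal ?_))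
        have a1 := pow_le_pow_left₀ (hFF0 t) (hFin t h3) 4
        refine a1.trans ?_
        rw [mul_pow]
        apply mul_le_mul_of_nonneg_left _ (by positivity)
        have hq := norm_nonneg (Q1 (1 / 4) T 2 t)
        generalize ‖Q1 (1 / 4) T 2 t‖ = q at hq
        have : (1 + q) ^ 2 ≤ 2 * (1 + q ^ 2) := by nlinarith [sq_nonneg (1 - q)]
        calc (1 + q) ^ 4 = ((1 + q) ^ 2) ^ 2 := by ring
          _ ≤ (2 * (1 + q ^ 2)) ^ 2 := pow_le_pow_left₀ (by positivity) this 2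
          _ ≤ 8 * (1 + q ^ (2 * 2)) := by
              have e : q ^ (2 * 2) = (q ^ 2) ^ 2 := by ring
              rw [e]
              nlinarith [sq_nonneg (1 - q ^ 2)]
      · have h4 : t < T - 1 ∨ 2 * T + 1 < t := by
          by_contra hcon
          push Not at hcon
          simp only [mem_Icc, not_and, not_le] at h1 h2 h3
          have b1 := h1 hcon.1
          by_cases b2 : 2 * T - L ≤ t
          · exact absurd (h2 b2) (by linarith [hcon.2])
          · have := h3 b1.le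
            linarith
        rw [hFout t h4]
        simp
    refine (lintegral_mono hle).trans ?_
    rw [lintegral_add_left (measurable_const.indicator measurableSet_Icc),
      lintegral_add_left (measurable_const.indicator measurableSet_Icc),
      lintegral_indicator measurableSet_Icc, lintegral_indicator measurableSet_Icc,
      lintegral_indicator measurableSet_Icc, setLIntegral_const, setLIntegral_const, Real.volume_Icc,
      Real.volume_Icc]
    have e3 : ∫⁻ t in Icc (T + L) (2 * T - L), ENNReal.ofReal ((8 * CM) ^ 4 *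
        (8 * (1 + ‖Q1 (1 / 4) T 2 t‖ ^ (2 * 2)))) =
        ENNReal.ofReal (∫ t in (T + L)..(2 * T - L), (8 * CM) ^ 4 *
        (8 * (1 + ‖Q1 (1 / 4) T 2 t‖ ^ (2 * 2)))) := by
      rw [intervalIntegral.integral_of_le hAB, ← integral_Icc_eq_integral_Ioc,
        ofReal_integral_eq_lintegral_ofReal]
      · exact (Continuous.integrableOn_Icc (by fun_prop))
      · exact Filter.Eventually.of_forall fun t => by positivity
    rw [e3, ← ENNReal.ofReal_mul (by positivity), ← ENNReal.ofReal_mul (by positivity)]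
    have e4 : ∫ t in (T + L)..(2 * T - L), (8 * CM) ^ 4 * (8 * (1 + ‖Q1 (1 / 4) T 2 t‖ ^ (2 * 2))) ≤
        (8 * CM) ^ 4 * (8 * (1 + 6 * (CQ / 2) ^ 2)) * T := by
      rw [intervalIntegral.integral_const_mul, intervalIntegral.integral_const_mul,
        intervalIntegral.integral_add (Continuous.intervalIntegrable (by fun_prop) _ _)
        (Continuous.intervalIntegrable (by fun_prop) _ _), intervalIntegral.integral_const, smul_eq_mul,
        mul_one]
      push_cast at hmom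
      have a1 : (2 * T - L - (T + L)) + ∫ t in (T + L)..(2 * T - L), ‖Q1 (1 / 4) T 2 t‖ ^ (2 * 2) ≤
          (1 + 6 * (CQ / 2) ^ 2) * T := by
        have : 6 * T * (CQ / 2) ^ 2 = 6 * (CQ / 2) ^ 2 * T := by ring
        linarith
      calc (8 * CM) ^ 4 * (8 * ((2 * T - L - (T + L)) +
          ∫ t in (T + L)..(2 * T - L), ‖Q1 (1 / 4) T 2 t‖ ^ (2 * 2))) ≤
          (8 * CM) ^ 4 * (8 * ((1 + 6 * (CQ / 2) ^ 2) * T)) := by gcongr
        _ = _ := by ring
    calc ENNReal.ofReal ((C2 * L) ^ 4 * (T + L - (T - 1))) +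
        (ENNReal.ofReal ((C2 * L) ^ 4 * (2 * T + 1 - (2 * T - L))) +
        ENNReal.ofReal (∫ t in (T + L)..(2 * T - L), (8 * CM) ^ 4 *
          (8 * (1 + ‖Q1 (1 / 4) T 2 t‖ ^ (2 * 2))))) ≤
        ENNReal.ofReal ((C2 * L) ^ 4 * (T + L - (T - 1))) +
        (ENNReal.ofReal ((C2 * L) ^ 4 * (2 * T + 1 - (2 * T - L))) +
        ENNReal.ofReal ((8 * CM) ^ 4 * (8 * (1 + 6 * (CQ / 2) ^ 2)) * T)) := by
          gcongr
      _ = ENNReal.ofReal ((C2 * L) ^ 4 * (T + L - (T - 1)) + ((C2 * L) ^ 4 * (2 * T + 1 - (2 * T - L)) +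
          (8 * CM) ^ 4 * (8 * (1 + 6 * (CQ / 2) ^ 2)) * T)) := by
          have p1 : 0 ≤ T + L - (T - 1) := by linarith
          have p2 : 0 ≤ 2 * T + 1 - (2 * T - L) := by linarith
          rw [ENNReal.ofReal_add (by positivity) (by positivity),
            ENNReal.ofReal_add (by positivity) (by positivity)]
      _ ≤ _ := by
          apply ENNReal.ofReal_le_ofReal
          have p3 : (C2 * L) ^ 4 * (T + L - (T - 1)) + (C2 * L) ^ 4 * (2 * T + 1 - (2 * T - L)) ≤ T := by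
            rw [← hL] at g1
            linarith
          linarith
  rw [hFF] at key
  obtain ⟨h3, h4⟩ := v4 (Zf riemannZeta T (2 * T)) w hw0 L hL0 _ (by positivity) key
  have e5 : (fun t : ℝ => (∑ s ∈ Zf riemannZeta T (2 * T), w s / (1 + ((s.im - t) * L) ^ 2)) ^ 4) =
      fun t => VV lam T t ^ 4 := by
    funext t
    rw [hwd, hL]
    rfl
  rw [e5] at h3 h4
  refine ⟨h3, h4.trans (le_of_eq ?_)⟩
  ring

end Pool.Agent.R320.VR
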