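import Pool.Agent.Y743.CL.Cf
import Pool.Agent.R320.VR.Apx4

/-! # The fourth moment of the prime sum -/

set_option autoImplicit false

namespace Pool.Agent.R320.VR

open Complex Filter Topology MeasureTheory Set
open Pool.Agent.TH850.UV
open Pool.Agent.Y743.CL
open Pool.Agent.Y41.SW (DP)

noncomputable local instance decSq (n : ℕ) : Decidable (∃ p : ℕ, p.Prime ∧ n = p ^ 2) :=
  Classical.propDecidable _

/-- the fourth moment of a prime polynomial -/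
lemma G4 (c : ℕ → ℝ) (X : ℕ) (hX : 1 ≤ X) (T A B : ℝ) (hT : 1 ≤ T) (hAB : A ≤ B)
    (hXT : ((X ^ 4 : ℕ) : ℝ) ≤ Real.sqrt T) :
    ∫ t in A..B, ‖G c X t‖ ^ 4 ≤ (2 * (B - A) + 32 * T) * VS c X ^ 2 := by
  have h1 := mom_bd c X hX T A B hT hAB 2 2 hXT
  rw [if_pos rfl] at h1
  have e1 : ∀ t : ℝ, G c X t ^ 2 * (starRingEnd ℂ) (G c X t) ^ 2 = ((‖G c X t‖ ^ 4 : ℝ) : ℂ) := by
    intro t
    rw [← mul_pow, Complex.mul_conj, Complex.normSq_eq_norm_sq]
    push_cast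
    ring
  simp_rw [e1] at h1
  rw [intervalIntegral.integral_ofReal, ← Complex.ofReal_mul, ← Complex.ofReal_sub, Complex.norm_real,
    Real.norm_eq_abs] at h1
  have h2 := (abs_le.1 h1).2
  have hV := VS_nonneg c X
  have h3 := SS_le c X 2
  have e2 : ((Nat.factorial 2 : ℕ) : ℝ) = 2 := by norm_num [Nat.factorial]
  rw [e2] at h2 h3
  rw [Real.mul_self_sqrt (by positivity)] at h2
  have h4 : Real.sqrt T * (1 + Real.log T) ≤ 2 * T := by
    have hs : Real.sqrt T * Real.sqrt T = T := Real.mul_self_sqrt (by linarith)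
    have hs0 : 0 < Real.sqrt T := Real.sqrt_pos.2 (by linarith)
    have h5 : Real.log T = 2 * Real.log (Real.sqrt T) := by
      rw [Real.log_sqrt (by linarith)]; ring
    have h6 : Real.log (Real.sqrt T) ≤ Real.sqrt T - 1 := Real.log_le_sub_one_of_pos hs0
    nlinarith
  have h5 : (B - A) * SS c X 2 ≤ (B - A) * (2 * VS c X ^ 2) :=
    mul_le_mul_of_nonneg_left h3 (by linarith)
  have h6 : 8 * (Real.sqrt T * (1 + Real.log T)) * (2 * VS c X ^ 2) ≤ 8 * (2 * T) * (2 * VS c X ^ 2) := by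
    gcongr
  calc ∫ t in A..B, ‖G c X t‖ ^ 4 ≤ (B - A) * (2 * VS c X ^ 2) + 8 * (2 * T) * (2 * VS c X ^ 2) := by
        linarith
    _ = _ := by ring

/-- higher prime powers -/
lemma pp3_sum : ∃ C : ℝ, 0 ≤ C ∧ ∀ N : ℕ,
    ∑ n ∈ (Finset.Icc 2 N).filter (fun n => IsPrimePow n ∧ ¬ n.Prime ∧ ¬ ∃ p : ℕ, p.Prime ∧ n = p ^ 2),
      (Real.sqrt n)⁻¹ ≤ C := by
  classical
  have hs : Summable (fun n : ℕ => 4 * (1 / (n : ℝ) ^ (3 / 2 : ℝ))) :=
    (Real.summable_one_div_nat_rpow.2 (by norm_num)).mul_left 4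
  refine ⟨∑' n : ℕ, 4 * (1 / (n : ℝ) ^ (3 / 2 : ℝ)), tsum_nonneg fun n => by positivity, fun N => ?_⟩
  set A := (Finset.Icc 2 N).filter (fun n => IsPrimePow n ∧ ¬ n.Prime ∧ ¬ ∃ p : ℕ, p.Prime ∧ n = p ^ 2) with hA
  have hch : ∀ n ∈ A, ∃ x : ℕ × ℕ, x ∈ Finset.Icc 2 N ×ˢ Finset.Icc 3 N ∧ x.1 ^ x.2 = n := by
    intro n hn
    rw [hA, Finset.mem_filter, Finset.mem_Icc] at hn
    obtain ⟨⟨h1, h2⟩, h3, h4, h5⟩ := hn
    rw [isPrimePow_nat_iff] at h3
    obtain ⟨p, k, hp, hk, rfl⟩ := h3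
    have hk2 : 3 ≤ k := by
      by_contra h
      have : k = 1 ∨ k = 2 := by omega
      rcases this with rfl | rfl
      · rw [pow_one] at h4
        exact h4 hp
      · exact h5 ⟨p, hp, rfl⟩
    refine ⟨(p, k), ?_, rfl⟩
    rw [Finset.mem_product, Finset.mem_Icc, Finset.mem_Icc]
    refine ⟨⟨hp.two_le, ?_⟩, hk2, ?_⟩
    · exact (Nat.le_self_pow (by omega) p).trans h2
    · exact (Nat.lt_pow_self hp.one_lt).le.trans h2
  choose! f hf using hch
  have h1 : ∑ n ∈ A, (Real.sqrt n)⁻¹ = ∑ x ∈ A.image f, (Real.sqrt ((x.1 : ℝ) ^ x.2))⁻¹ := by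
    rw [Finset.sum_image]
    · refine Finset.sum_congr rfl fun n hn => ?_
      rw [← Nat.cast_pow, (hf n hn).2]
    · intro a ha b hb h
      rw [← (hf a ha).2, ← (hf b hb).2, h]
  rw [h1]
  have h2 : ∑ x ∈ A.image f, (Real.sqrt ((x.1 : ℝ) ^ x.2))⁻¹ ≤
      ∑ x ∈ Finset.Icc 2 N ×ˢ Finset.Icc 3 N, (Real.sqrt ((x.1 : ℝ) ^ x.2))⁻¹ := by
    refine Finset.sum_le_sum_of_subset_of_nonneg ?_ fun _ _ _ => by positivity
    intro x hx
    rw [Finset.mem_image] at hx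
    obtain ⟨n, hn, rfl⟩ := hx
    exact (hf n hn).1
  refine h2.trans ?_
  rw [Finset.sum_product]
  refine le_trans ?_ (hs.sum_le_tsum (Finset.Icc 2 N) fun n _ => by positivity)
  refine Finset.sum_le_sum fun p hp => ?_
  rw [Finset.mem_Icc] at hp
  have hp2 : (2 : ℝ) ≤ p := by exact_mod_cast hp.1
  have hp0 : (0 : ℝ) < p := by linarith
  set q : ℝ := (Real.sqrt p)⁻¹ with hq
  have hsp : 0 < Real.sqrt p := Real.sqrt_pos.2 hp0
  have hq0 : 0 < q := by positivity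
  have hq1 : q ≤ 3 / 4 := by
    rw [hq, inv_le_comm₀ hsp (by norm_num)]
    rw [show ((3 / 4 : ℝ))⁻¹ = 4 / 3 by norm_num]
    apply Real.le_sqrt_of_sq_le
    linarith
  have hpow : ∀ k : ℕ, (Real.sqrt ((p : ℝ) ^ k))⁻¹ = q ^ k := by
    intro k
    rw [hq, inv_pow]
    congr 1
    rw [Real.sqrt_eq_iff_mul_self_eq (by positivity) (by positivity), ← mul_pow, Real.mul_self_sqrt hp0.le]
  have hgen : ∀ K : ℕ, 2 ≤ K → ∑ m ∈ Finset.Icc 3 K, (Real.sqrt ((p : ℝ) ^ m))⁻¹ ≤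
      4 * q ^ 3 - 4 * q ^ (K + 1) := by
    intro K hK
    induction K, hK using Nat.le_induction with
    | base => simp
    | succ K hK ih =>
      rw [Finset.sum_Icc_succ_top (by omega), hpow]
      have e3 : 0 < q ^ (K + 1) := by positivity
      have e4 : q ^ (K + 1 + 1) = q * q ^ (K + 1) := by ring
      rw [e4]
      nlinarith
  have hq3 : q ^ 3 = 1 / (p : ℝ) ^ (3 / 2 : ℝ) := by
    rw [hq, inv_pow, one_div]
    congr 1
    rw [Real.sqrt_eq_rpow, ← Real.rpow_natCast, ← Real.rpow_mul hp0.le]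
    norm_num
  rcases Nat.lt_or_ge N 2 with hN | hN
  · omega
  · have := hgen N hN
    rw [← hq3]
    have h4 : 0 < q ^ (N + 1) := by positivity
    linarith

/-- the coefficients at the squares of the primes -/
lemma VS2_bd : ∃ C : ℝ, 0 ≤ C ∧ ∀ (l h : ℝ), 0 < l → ∀ X : ℕ, VS (fun p => rc l h (p ^ 2)) X ≤ C := by
  have hs : Summable (fun n : ℕ => 1 / (n : ℝ) ^ 2) := Real.summable_one_div_nat_pow.2 (by norm_num)
  refine ⟨∑' n : ℕ, 1 / (n : ℝ) ^ 2, tsum_nonneg fun n => by positivity, fun l h hl X => ?_⟩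
  unfold VS
  refine le_trans (Finset.sum_le_sum fun p hp => ?_) (hs.sum_le_tsum (Pr X) fun n _ => by positivity)
  have hp' := mem_Pr.1 hp
  have h2 : 2 ≤ p ^ 2 := by nlinarith [hp'.1.two_le]
  rw [rc_sq l h (p ^ 2) h2]
  refine (kap_bd hl h (p ^ 2) h2).trans ?_
  split_ifs
  · push_cast; exact le_rfl
  · positivity

/-- splitting the sum over proper prime powers -/
lemma split_pp (l h : ℝ) (X : ℕ) (t : ℝ) :
    ∑ n ∈ Finset.Icc 2 X, (if n.Prime ∧ n ≤ X then 0 else kap l h n) * (n : ℂ) ^ (-(t : ℂ) * I) =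
      G (fun p => rc l h (p ^ 2)) (Nat.sqrt X) (2 * t + h) +
      ∑ n ∈ (Finset.Icc 2 X).filter (fun n => ¬ n.Prime ∧ ¬ ∃ p : ℕ, p.Prime ∧ n = p ^ 2),
        kap l h n * (n : ℂ) ^ (-(t : ℂ) * I) := by
  classical
  have h1 : ∑ n ∈ Finset.Icc 2 X, (if n.Prime ∧ n ≤ X then 0 else kap l h n) * (n : ℂ) ^ (-(t : ℂ) * I) =
      ∑ n ∈ (Finset.Icc 2 X).filter (fun n => ¬ n.Prime), kap l h n * (n : ℂ) ^ (-(t : ℂ) * I) := by
    rw [Finset.sum_filter]
    refine Finset.sum_congr rfl fun n hn => ?_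
    have := (Finset.mem_Icc.1 hn).2
    by_cases hp : n.Prime
    · rw [if_pos ⟨hp, this⟩, if_neg (not_not.2 hp), zero_mul]
    · rw [if_neg (fun hh => hp hh.1), if_pos hp]
  rw [h1, ← Finset.sum_filter_add_sum_filter_not _ (fun n => ∃ p : ℕ, p.Prime ∧ n = p ^ 2),
    Finset.filter_filter, Finset.filter_filter]
  congr 1
  have h2 : G (fun p => rc l h (p ^ 2)) (Nat.sqrt X) (2 * t + h) =
      ∑ p ∈ Pr (Nat.sqrt X), kap l h (p ^ 2) * ((p ^ 2 : ℕ) : ℂ) ^ (-(t : ℂ) * I) := by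
    unfold G DP
    have e1 : ∑ n ∈ Finset.Icc 1 (Nat.sqrt X), ((pr (fun p => rc l h (p ^ 2)) (Nat.sqrt X) n : ℝ) : ℂ) *
        (n : ℂ) ^ (-((2 * t + h : ℝ) : ℂ) * I) = ∑ n ∈ Pr (Nat.sqrt X),
        ((pr (fun p => rc l h (p ^ 2)) (Nat.sqrt X) n : ℝ) : ℂ) *
        (n : ℂ) ^ (-((2 * t + h : ℝ) : ℂ) * I) := by
      symm
      refine Finset.sum_subset ?_ ?_
      · intro n hn
        rw [mem_Pr] at hn
        rw [Finset.mem_Icc]
        exact ⟨hn.1.one_le, hn.2⟩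
      · intro n hn hn2
        have : pr (fun p => rc l h (p ^ 2)) (Nat.sqrt X) n = 0 := by
          rw [pr_apply, if_neg]
          intro hh
          apply hn2
          rw [mem_Pr]
          exact hh
        rw [this]
        simp
    rw [e1]
    refine Finset.sum_congr rfl fun p hp => ?_
    have hp' := mem_Pr.1 hp
    have h2 : 2 ≤ p ^ 2 := by nlinarith [hp'.1.two_le]
    rw [kap_rc l h (p ^ 2) h2 t, pr_apply, if_pos hp']
    congr 1
    have hp0 : (p : ℂ) ≠ 0 := by exact_mod_cast hp'.1.ne_zero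
    rw [Complex.cpow_def_of_ne_zero hp0, Complex.cpow_def_of_ne_zero (by exact_mod_cast (by positivity : p ^ 2 ≠ 0)),
      ← Complex.natCast_log, ← Complex.natCast_log]
    congr 1
    push_cast
    rw [Real.log_pow]
    push_cast
    ring
  rw [h2]
  symm
  refine Finset.sum_bij (fun p _ => p ^ 2) ?_ ?_ ?_ ?_
  · intro p hp
    have hp' := mem_Pr.1 hp
    rw [Finset.mem_filter, Finset.mem_Icc]
    refine ⟨⟨by nlinarith [hp'.1.two_le], ?_⟩, ?_, p, hp'.1, rfl⟩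
    · have := Nat.le_sqrt'.1 hp'.2
      exact this
    · exact Nat.Prime.not_prime_pow (le_refl 2)
  · intro p _ q _ hpq
    exact Nat.pow_left_injective (by norm_num : 2 ≠ 0) hpq
  · intro n hn
    rw [Finset.mem_filter, Finset.mem_Icc] at hn
    obtain ⟨⟨h3, h4⟩, h5, p, hp, rfl⟩ := hn
    refine ⟨p, ?_, rfl⟩
    rw [mem_Pr]
    exact ⟨hp, Nat.le_sqrt'.2 h4⟩
  · intro p _
    rfl

lemma kap_norm {l : ℝ} (hl : 0 < l) (h : ℝ) (n : ℕ) (hn : 2 ≤ n) :
    ‖kap l h n‖ ≤ if IsPrimePow n then (Real.sqrt n)⁻¹ else 0 := by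
  have h1 := kap_bd hl h n hn
  split_ifs at h1 ⊢ with hp
  · rw [← Real.sqrt_inv]
    apply Real.le_sqrt_of_sq_le
    rw [one_div] at h1
    exact h1
  · have h0 := norm_nonneg (kap l h n)
    nlinarith

/-- the fourth moment of the prime sum -/
theorem Db4 {lam : ℝ} (hlam : 16 ≤ lam) (B : ℝ) (hB : 1 ≤ B) : ∃ C T0 : ℝ, 0 < C ∧ 10 ≤ T0 ∧
    ∀ T : ℝ, T0 ≤ T → ∀ a : ℝ, lam ≤ a → a * Real.log a ≤ B * Real.log T →
    ∀ A' B' : ℝ, A' ≤ B' → B' - A' ≤ T →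
    ∫ t in A'..B', Db (Real.log T / lam) (2 * Real.pi * a / Real.log T) (XT T) t ^ 4 ≤
      C * (1 + Real.log a) ^ 2 * T := by
  obtain ⟨C2, T2, hC2, hT2, hK⟩ := kap_sum hlam B hB
  obtain ⟨C3, hC3, hpp⟩ := pp3_sum
  obtain ⟨C4, hC4, hV2⟩ := VS2_bd
  have hpi := Real.pi_pos
  have hlam0 : 0 < lam := by linarith
  refine ⟨8 * 34 * (1 + C2) ^ 2 + 64 * 18 * C4 ^ 2 + 64 * C3 ^ 4, max T2 10, by positivity,
    le_max_right _ _, fun T hT a ha haL A' B' hAB hABT => ?_⟩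
  have hTT2 : T2 ≤ T := (le_max_left _ _).trans hT
  have hT10 : 10 ≤ T := (le_max_right _ _).trans hT
  have hT0 : 0 < T := by linarith
  have hT1 : 1 ≤ T := by linarith
  have ha0 : 0 < a := by linarith
  have hla0 : 0 ≤ Real.log a := Real.log_nonneg (by linarith)
  have hkap := hK T hTT2 a ha haL
  set L := Real.log T with hL
  have hL0 : 0 < L := Real.log_pos (by linarith)
  set l := L / lam with hl
  have hl0 : 0 < l := by positivity
  set h := 2 * Real.pi * a / L with hh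
  set X := XT T with hX
  have hXK : XK (1 / 8) T = X := rfl
  have hX1 : 1 ≤ X := by
    rw [hX]
    unfold XT
    apply Nat.le_floor
    rw [Nat.cast_one]
    exact Real.one_le_rpow hT1 (by norm_num)
  have hX4 : ((X ^ 4 : ℕ) : ℝ) ≤ Real.sqrt T := by
    have h1 : (X : ℝ) ≤ T ^ (1 / 8 : ℝ) := Nat.floor_le (by positivity)
    push_cast
    calc (X : ℝ) ^ 4 ≤ (T ^ (1 / 8 : ℝ)) ^ 4 := pow_le_pow_left₀ (Nat.cast_nonneg _) h1 4
      _ = Real.sqrt T := by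
          rw [Real.sqrt_eq_rpow, ← Real.rpow_natCast, ← Real.rpow_mul hT0.le]
          norm_num
  have hs1 : 1 ≤ Nat.sqrt X := Nat.sqrt_pos.2 (by omega)
  have hs4 : (((Nat.sqrt X) ^ 4 : ℕ) : ℝ) ≤ Real.sqrt T := by
    refine le_trans ?_ hX4
    exact_mod_cast Nat.pow_le_pow_left (Nat.sqrt_le_self X) 4
  -- the variance
  have hVS : VS (rc l h) X ≤ (1 + C2) * (1 + Real.log a) := by
    have h1 := VS_eq (1 / 8) T l h le_rfl hT1
    rw [hXK, ← hX] at h1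
    have h2 : 0 ≤ ∑ n ∈ (Finset.Icc 2 X).filter (fun n => ¬ (n.Prime ∧ n ≤ X)),
      ‖kap l h n‖ ^ 2 := Finset.sum_nonneg fun _ _ => sq_nonneg _
    have h3 := (abs_le.1 hkap).2
    have h4 : 2 / Real.pi ^ 2 * Real.log a ≤ 1 * Real.log a := by
      apply mul_le_mul_of_nonneg_right _ hla0
      rw [div_le_one (by positivity)]
      nlinarith [Real.pi_gt_three]
    have h5 := mul_nonneg hC2.le hla0
    linarith
  have hVS0 := VS_nonneg (rc l h) X
  have hVS2 : VS (rc l h) X ^ 2 ≤ (1 + C2) ^ 2 * (1 + Real.log a) ^ 2 := by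
    rw [← mul_pow]
    exact pow_le_pow_left₀ hVS0 hVS 2
  -- the pieces
  set P1 : ℝ → ℂ := fun t => G (rc l h) X (t + h / 2) with hP1
  set P2 : ℝ → ℂ := fun t => G (fun p => rc l h (p ^ 2)) (Nat.sqrt X) (2 * t + h) with hP2
  have hP1c : Continuous P1 := (G_cont _ _).comp (by fun_prop)
  have hP2c : Continuous P2 := (G_cont _ _).comp (by fun_prop)
  have hDc := Db_cont l h X
  have i1 : ∫ t in A'..B', ‖P1 t‖ ^ 4 ≤ 34 * T * ((1 + C2) ^ 2 * (1 + Real.log a) ^ 2) := by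
    have e1 : ∫ t in A'..B', ‖P1 t‖ ^ 4 = ∫ t in (A' + h / 2)..(B' + h / 2), ‖G (rc l h) X t‖ ^ 4 :=
      intervalIntegral.integral_comp_add_right (fun t => ‖G (rc l h) X t‖ ^ 4) (h / 2)
    rw [e1]
    refine (G4 (rc l h) X hX1 T _ _ hT1 (by linarith) hX4).trans ?_
    have : 2 * (B' + h / 2 - (A' + h / 2)) + 32 * T ≤ 34 * T := by linarith
    gcongr
  have i2 : ∫ t in A'..B', ‖P2 t‖ ^ 4 ≤ 18 * T * C4 ^ 2 := by
    have e1 : ∫ t in A'..B', ‖P2 t‖ ^ 4 = (2 : ℝ)⁻¹ * ∫ t in (2 * A' + h)..(2 * B' + h),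
        ‖G (fun p => rc l h (p ^ 2)) (Nat.sqrt X) t‖ ^ 4 := by
      have := intervalIntegral.integral_comp_mul_add (a := A') (b := B')
        (fun t => ‖G (fun p => rc l h (p ^ 2)) (Nat.sqrt X) t‖ ^ 4) (c := 2) (by norm_num) h
      rw [smul_eq_mul] at this
      exact this
    rw [e1]
    have h2 := G4 (fun p => rc l h (p ^ 2)) (Nat.sqrt X) hs1 T (2 * A' + h) (2 * B' + h) hT1
      (by linarith) hs4
    have h3 : VS (fun p => rc l h (p ^ 2)) (Nat.sqrt X) ^ 2 ≤ C4 ^ 2 :=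
      pow_le_pow_left₀ (VS_nonneg _ _) (hV2 l h hl0 _) 2
    have h4 : (2 * (2 * B' + h - (2 * A' + h)) + 32 * T) * VS (fun p => rc l h (p ^ 2)) (Nat.sqrt X) ^ 2 ≤
        (36 * T) * C4 ^ 2 := by
      apply mul_le_mul _ h3 (by positivity) (by positivity)
      linarith
    linarith
  have hpt : ∀ t, Db l h X t ^ 4 ≤ 8 * ‖P1 t‖ ^ 4 + (64 * ‖P2 t‖ ^ 4 + 64 * C3 ^ 4) := by
    intro t
    have h1 := Db_G (1 / 8) T l h le_rfl hT1 t
    rw [hXK, ← hX, split_pp] at h1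
    set P3 := ∑ n ∈ (Finset.Icc 2 X).filter (fun n => ¬ n.Prime ∧ ¬ ∃ p : ℕ, p.Prime ∧ n = p ^ 2),
        kap l h n * (n : ℂ) ^ (-(t : ℂ) * I) with hP3
    have h3 : ‖P3‖ ≤ C3 := by
      refine le_trans ?_ (hpp X)
      rw [hP3]
      refine (norm_sum_le _ _).trans ?_
      rw [Finset.sum_filter, Finset.sum_filter]
      refine Finset.sum_le_sum fun n hn => ?_
      have hn2 := (Finset.mem_Icc.1 hn).1
      have hk := kap_norm hl0 h n hn2
      have hc : ‖(n : ℂ) ^ (-(t : ℂ) * I)‖ = 1 := by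
        have hn0 : (0 : ℝ) < n := by exact_mod_cast (by omega : 0 < n)
        have : ((n : ℕ) : ℂ) = ((n : ℝ) : ℂ) := by push_cast; rfl
        rw [this, Complex.norm_cpow_eq_rpow_re_of_pos hn0]
        simp
      by_cases hc1 : ¬ n.Prime ∧ ¬ ∃ p : ℕ, p.Prime ∧ n = p ^ 2
      · rw [if_pos hc1, norm_mul, hc, mul_one]
        by_cases hc2 : IsPrimePow n
        · rw [if_pos ⟨hc2, hc1⟩]
          rw [if_pos hc2] at hk
          exact hk
        · rw [if_neg (fun hh => hc2 hh.1)]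
          rw [if_neg hc2] at hk
          exact hk
      · rw [if_neg hc1, if_neg (fun hh => hc1 hh.2)]
    have h4 : |Db l h X t| ≤ ‖P1 t‖ + (‖P2 t‖ + ‖P3‖) := by
      rw [h1]
      refine (abs_add_le _ _).trans ?_
      refine add_le_add (Complex.abs_re_le_norm _) ?_
      exact (Complex.abs_re_le_norm _).trans (norm_add_le _ _)
    have h5 : Db l h X t ^ 4 ≤ (‖P1 t‖ + (‖P2 t‖ + C3)) ^ 4 := by
      have e : Db l h X t ^ 4 = |Db l h X t| ^ 4 := by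
        rw [← abs_pow]; exact (abs_of_nonneg (by positivity)).symm
      rw [e]
      exact pow_le_pow_left₀ (abs_nonneg _) (by linarith) 4
    have h6 := sq_add4 ‖P1 t‖ (‖P2 t‖ + C3)
    have h7 := sq_add4 ‖P2 t‖ C3
    linarith
  have i3 : ∫ t in A'..B', Db l h X t ^ 4 ≤
      ∫ t in A'..B', (8 * ‖P1 t‖ ^ 4 + (64 * ‖P2 t‖ ^ 4 + 64 * C3 ^ 4)) :=
    intervalIntegral.integral_mono_on hAB (Continuous.intervalIntegrable (by fun_prop) _ _)
      (Continuous.intervalIntegrable (by fun_prop) _ _) fun x _ => hpt x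
  refine i3.trans ?_
  rw [intervalIntegral.integral_add (Continuous.intervalIntegrable (by fun_prop) _ _)
    (Continuous.intervalIntegrable (by fun_prop) _ _),
    intervalIntegral.integral_add (Continuous.intervalIntegrable (by fun_prop) _ _)
    (Continuous.intervalIntegrable (by fun_prop) _ _), intervalIntegral.integral_const_mul,
    intervalIntegral.integral_const_mul, intervalIntegral.integral_const, smul_eq_mul]
  have h8 : (B' - A') * (64 * C3 ^ 4) ≤ T * (64 * C3 ^ 4) := by gcongr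
  have h9 : (1 : ℝ) ≤ (1 + Real.log a) ^ 2 := by
    have : (1 : ℝ) ≤ 1 + Real.log a := by linarith
    nlinarith
  have h10 : T * (64 * C3 ^ 4) ≤ 64 * C3 ^ 4 * (1 + Real.log a) ^ 2 * T := by
    have : 0 ≤ T * (64 * C3 ^ 4) := by positivity
    nlinarith
  have h11 : 64 * (18 * T * C4 ^ 2) ≤ 64 * 18 * C4 ^ 2 * (1 + Real.log a) ^ 2 * T := by
    have : 0 ≤ 64 * (18 * T * C4 ^ 2) := by positivity
    nlinarith
  calc _ ≤ 8 * (34 * T * ((1 + C2) ^ 2 * (1 + Real.log a) ^ 2)) + (64 * (18 * T * C4 ^ 2) + T * (64 * C3 ^ 4)) := by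
        linarith
    _ ≤ 8 * (34 * T * ((1 + C2) ^ 2 * (1 + Real.log a) ^ 2)) +
        (64 * 18 * C4 ^ 2 * (1 + Real.log a) ^ 2 * T + 64 * C3 ^ 4 * (1 + Real.log a) ^ 2 * T) := by linarith
    _ = _ := by ring

end Pool.Agent.R320.VR
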